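import Mathlib
import Pool.Agent.J6H53.PB.Thr

set_option autoImplicit false

namespace Pool.Agent.Results.MP_90b327_co.BlockCorrelationThreshold

open Finset

/-- `cube d γ` is `γ^d`, the set of all `d`-tuples with entries in `γ`. -/
def cube {N : ℕ} (d : ℕ) (γ : Finset (Fin N)) : Finset (Fin d → Fin N) :=
  Fintype.piFinset (fun _ : Fin d => γ)

/-- A family `S` of subsets of `[N]^d` is good if there are `A ∈ S` and a nonempty `γ ⊆ [N]` with
`A ∩ γ^d = ∅` and `A ∪ γ^d ∈ S`. -/
def Good {N d : ℕ} (S : Finset (Finset (Fin d → Fin N))) : Prop :=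
  ∃ A ∈ S, ∃ γ : Finset (Fin N), γ.Nonempty ∧ Disjoint A (cube d γ) ∧ A ∪ cube d γ ∈ S

/-- For `d = 2` the restricted density polynomial Hales-Jewett statement holds for all densities
above `0.306564`. -/
theorem result : ∀ δ : ℝ, 306564 / 1000000 < δ →
    ∃ N₀ : ℕ, ∀ N : ℕ, N₀ ≤ N → ∀ S : Finset (Finset (Fin 2 → Fin N)),
      δ * (2 : ℝ) ^ (N ^ 2) < S.card → Good S := by
  intro δ hδ
  refine Pool.Agent.J6H53.PB.thr_of_bound (D₀ := 306564 / 1000000) (fun X hX => ?_) δ hδ
  have := Pool.Agent.J6H53.PB.Data.bound X hX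
  linarith

end Pool.Agent.Results.MP_90b327_co.BlockCorrelationThreshold
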