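import Pool.Agent.J6H96.CF.All3

/-!
# The restricted density polynomial Hales-Jewett conjecture and families determined by counts

A family `S` of subsets of `[N]^d` is good if it contains `A` and `A ∪ γ^d` for some nonempty `γ ⊆ [N]` with
`A ∩ γ^d = ∅`. Let the elements of `[N]^d` (the cells) be partitioned into `r` classes, in an arbitrary way,
let `U_1, ..., U_κ` be monotone (or unate) families, and let `F` be a family such that the membership of `A` in `F`
depends only on the numbers of elements of `A` in the classes and on its membership in the `U_j`; the condition on these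
data is arbitrary (for instance arithmetic, or random). We show: if `|F| ≥ δ 2^(N^d)` and `N ≥ N₀(d, r, κ, δ, η)`,
then every family `S` which contains a proportion of `1/2 + η` of the members of `F` is good, in particular
`F` itself, in every dimension `d ≥ 1` and for all `δ, η > 0`.

(1) It is enough that this holds on a subcube `I^d`, where `I` has at least `N₀` elements: the partition and the `U_j`
may depend on the contents of the other cells, and so does the condition.

(2) For instance `F` may be the family of the `A` for which `∑_{x ∈ A} w x` and the truth values of `A ∈ U_j` are in an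
arbitrary relation `R`, where `w` is a weight with at most `r` values in a commutative monoid `G`. With `G = ℤ^s`
this contains arbitrary conditions on `s` linear forms with bounded integer coefficients, and arbitrary
conditions on the cardinalities `|A ∩ X_1|, ..., |A ∩ X_s|` for sets of cells `X_1, ..., X_s`. Linear threshold
conditions `∑_{x ∈ A} c x ≥ t` with arbitrary real coefficients are unate. (Already for `κ = 1`, `r = 1`:
`|A| ∈ T` and `A` contains a Hamiltonian path.)

(3) The numbers of classes and of unate families may tend to infinity slowly with `N`, and the densities to zero.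

For one class and `S = F = {A : |A| ∈ T}` the assertion (1) contains the theorem of Furstenberg and Sárközy
for the differences `k^d`: translate a dense subset `T` of an interval of length about `√(N^d)` such that the
interval contains `N^d / 2`.

Proof. Few elements of `[N]` occur in cells of small classes. By Ramsey's theorem there is a large
set `H` of other elements such that for `γ ⊆ H` the numbers of cells of `γ^d` in the classes depend
only on `k = |γ|`; they are then polynomials `P(k)` with `P(0) = 0` and boundedly many possible
coefficients. Fix the truth values of the `U_j` for which `S` has a large share, and let `R'` be the set of the count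
vectors `c` such that among the sets with these truth values and counts `c` the share of `S` is at least
`1/2 + η/2`, with room to spare. The law of the counts of a random set in the large classes is almost invariant
under bounded translations, so `R'` has positive density in a random translate of a fixed large box, and
the vector version of the theorem of Furstenberg and Sárközy gives one `k ≥ 1` such that a
positive proportion of the sets `A` has counts `c` with `c, c + P(k) ∈ R'`. (The vector version is
proved with the spectral measures of sets without such differences, Weyl's theorem and Prokhorov's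
theorem.) Take `m` disjoint `γ_j ⊆ H` with `k` elements. For most `j` and `A` the truth values do not change
from `A` to `A ∪ γ_j^d`, as unate families have total influence at most `√(m k^d)` on these cells. If `S` is not good, then
for each `j` the map `A ↦ A ∪ γ_j^d` sends the members `A` of `S` with such counts and `A ∩ γ_j^d = ∅` to sets
outside `S`. By a second moment estimate the shares of `S` among these `A` and among their images
are larger than `1/2` for some `j`, a contradiction.
-/

set_option autoImplicit false

namespace Pool.Agent.Results.MP_90b327_co.CountFamilies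

open Finset Filter

/-- The cells of `[N]^d`. -/
abbrev Cell (d N : ℕ) : Type := Fin d → Fin N

/-- The cube `γ^d`. -/
def cube {N : ℕ} (d : ℕ) (γ : Finset (Fin N)) : Finset (Cell d N) :=
  Fintype.piFinset (fun _ : Fin d => γ)

/-- A family `S` of subsets of `[N]^d` is good if there are `A ∈ S` and a nonempty `γ ⊆ [N]` with
`A ∩ γ^d = ∅` and `A ∪ γ^d ∈ S`. -/
def Good {d N : ℕ} (S : Finset (Finset (Cell d N))) : Prop :=
  ∃ A ∈ S, ∃ γ : Finset (Fin N), γ.Nonempty ∧ Disjoint A (cube d γ) ∧ A ∪ cube d γ ∈ S

/-- The number of the elements of `A` in class `i` of the partition `χ`. -/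
def count {d N r : ℕ} (χ : Cell d N → Fin r) (A : Finset (Cell d N)) (i : Fin r) : ℕ :=
  (A.filter (fun x => χ x = i)).card

/-- `U` is unate in the cells of `I^d`: for every cell `x` of `I^d` adding `x` to subsets of `I^d` preserves `U`, or
removing `x` does (monotone families; linear threshold conditions with real coefficients). -/
def Unate {d N : ℕ} (I : Finset (Fin N)) (U : Finset (Cell d N) → Prop) : Prop :=
  ∀ x ∈ cube d I, (∀ A, A ⊆ cube d I → x ∉ A → U A → U (insert x A)) ∨
    (∀ A, A ⊆ cube d I → x ∉ A → U (insert x A) → U A)

/-- For every content `C` of the cells outside `I^d` there are a partition `χ` of the cells into `r`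
classes and `κ` families `U j`, unate in the cells of `I^d`, such that, for `A ⊆ I^d`, the membership of
`A ∪ C` in `F` depends only on the numbers of elements of `A` in the classes and on the truth values of `U j A`. -/
def Determined {d N : ℕ} (r κ : ℕ) (I : Finset (Fin N)) (F : Finset (Finset (Cell d N))) : Prop :=
  ∀ C : Finset (Cell d N), Disjoint C (cube d I) → ∃ (χ : Cell d N → Fin r)
    (U : Fin κ → Finset (Cell d N) → Prop), (∀ j, Unate I (U j)) ∧
      ∀ A B : Finset (Cell d N), A ⊆ cube d I → B ⊆ cube d I →
        (∀ i, count χ A i = count χ B i) → (∀ j, U j A ↔ U j B) → (A ∪ C ∈ F ↔ B ∪ C ∈ F)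

/-- **(1)** Let `d ≥ 1`, `r`, `κ`, `δ > 0`, `η > 0`. If `I ⊆ [N]` is large enough, `F` is determined on `I^d` by at most
`r` counts and `κ` unate families, `|F| ≥ δ 2^(N^d)` and `|F ∩ S| ≥ (1/2 + η) |F|`, then `S` is good. **(2)** The
families `F` given by a relation `R` between `∑_{x ∈ A} w x`, `w` a weight with at most `r` values in a commutative
monoid, and the truth values of `κ` unate families. **(3)** The same for `I = [N]` with `r = κ = f N`,
`δ = η = 1 / f N`, where `f N → ∞`. -/
theorem result (d : ℕ) (hd : 1 ≤ d) :
    (∀ (r κ : ℕ) (δ η : ℝ), 0 < δ → 0 < η → ∃ M : ℕ, ∀ (N : ℕ) (I : Finset (Fin N)), M ≤ I.card →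
      ∀ F S : Finset (Finset (Cell d N)), Determined r κ I F →
        δ * 2 ^ (N ^ d) ≤ (F.card : ℝ) → (1 / 2 + η) * (F.card : ℝ) ≤ ((F ∩ S).card : ℝ) →
          Good S) ∧
    (∀ (r κ : ℕ) (δ η : ℝ), 0 < δ → 0 < η → ∃ N₀ : ℕ, ∀ N : ℕ, N₀ ≤ N →
      ∀ (G : Type) [AddCommMonoid G] (w : Cell d N → G) (U : Fin κ → Finset (Cell d N) → Prop)
        (R : G → (Fin κ → Prop) → Prop), (Set.range w).ncard ≤ r → (∀ j, Unate univ (U j)) →
        ∀ F S : Finset (Finset (Cell d N)), (∀ A, A ∈ F ↔ R (∑ x ∈ A, w x) (fun j => U j A)) →
          δ * 2 ^ (N ^ d) ≤ (F.card : ℝ) → (1 / 2 + η) * (F.card : ℝ) ≤ ((F ∩ S).card : ℝ) →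
            Good S) ∧
    (∃ f : ℕ → ℕ, Tendsto f atTop atTop ∧ ∀ (N : ℕ) (F S : Finset (Finset (Cell d N))),
      Determined (f N) (f N) univ F → (2 : ℝ) ^ (N ^ d) ≤ (f N : ℝ) * (F.card : ℝ) →
        (1 / 2 + 1 / (f N : ℝ)) * (F.card : ℝ) ≤ ((F ∩ S).card : ℝ) → Good S) := by
  classical
  have h1 : ∀ (r κ : ℕ) (δ η : ℝ), 0 < δ → 0 < η → ∃ M : ℕ, ∀ (N : ℕ) (I : Finset (Fin N)),
      M ≤ I.card → ∀ F S : Finset (Finset (Cell d N)), Determined r κ I F →
        δ * 2 ^ (N ^ d) ≤ (F.card : ℝ) → (1 / 2 + η) * (F.card : ℝ) ≤ ((F ∩ S).card : ℝ) →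
          Good S := by
    intro r κ δ η hδ hη
    obtain ⟨M, hM⟩ := Pool.Agent.J6H96.CF.all3 d hd r κ δ η hδ hη
    refine ⟨M, ?_⟩
    intro N I hI F S hF hFc hFS
    obtain ⟨χ₀, -⟩ := hF ∅ (disjoint_empty_left _)
    have hne : Nonempty (Cell d N → Fin r) := ⟨χ₀⟩
    choose! χ U hU hχ using hF
    obtain ⟨A, hA, γ, -, hγ, hdis, hAγ⟩ := hM N I hI χ U F S (fun C hC j => hU C hC j)
      (fun C A B hC hA hB hAB hUAB h =>
        (hχ C hC A B hA hB (fun i => congrFun hAB i) hUAB).1 h) hFc (by
        rw [filter_mem_eq_inter]
        exact hFS)
    exact ⟨A, hA, γ, hγ, hdis, hAγ⟩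
  refine ⟨h1, ?_, ?_⟩
  · intro r κ δ η hδ hη
    obtain ⟨M, hM⟩ := h1 r κ δ η hδ hη
    refine ⟨M + 1, ?_⟩
    intro N hN G _ w U R hw hU F S hF hFc hFS
    have hN1 : 0 < N := by omega
    refine hM N univ (by rw [card_univ, Fintype.card_fin]; omega) F S ?_ hFc hFS
    -- a partition into `r` classes
    have hfin : (Set.range w).Finite := Set.finite_range w
    have x0 : Cell d N := fun _ => ⟨0, hN1⟩
    have hr : 0 < r := by
      refine lt_of_lt_of_le ?_ hw
      rw [Set.ncard_pos hfin]
      exact ⟨w x0, x0, rfl⟩
    obtain ⟨e⟩ : Nonempty (Set.range w ↪ Fin r) := by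
      have : Fintype (Set.range w) := hfin.fintype
      rw [Function.Embedding.nonempty_iff_card_le, Fintype.card_fin, ← Nat.card_eq_fintype_card]
      exact hw
    let χ : Cell d N → Fin r := fun x => e ⟨w x, x, rfl⟩
    have hχ : ∀ x y, χ x = χ y → w x = w y := by
      intro x y h
      have h2 := e.injective h
      exact congrArg Subtype.val h2
    let g : Fin r → G := fun i => if h : ∃ x, χ x = i then w h.choose else 0
    have hg : ∀ x, g (χ x) = w x := by
      intro x
      have h2 : ∃ y, χ y = χ x := ⟨x, rfl⟩
      simp only [g]
      rw [dif_pos h2]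
      exact hχ _ _ h2.choose_spec
    have hsum : ∀ A : Finset (Cell d N), ∑ x ∈ A, w x = ∑ i, count χ A i • g i := by
      intro A
      rw [← sum_fiberwise A χ w]
      refine sum_congr rfl fun i _ => ?_
      unfold count
      rw [← sum_const]
      refine sum_congr rfl fun x hx => ?_
      rw [mem_filter] at hx
      rw [← hg x, hx.2]
    intro C hC
    have hC0 : C = ∅ := by
      rw [eq_empty_iff_forall_notMem]
      intro x hx
      refine disjoint_left.1 hC hx ?_
      unfold cube
      rw [Fintype.mem_piFinset]
      exact fun j => mem_univ _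
    refine ⟨χ, U, hU, fun A B _ _ hAB hUAB => ?_⟩
    rw [hC0, union_empty, union_empty, hF, hF, hsum A, hsum B]
    have h2 : count χ A = count χ B := funext hAB
    have h3 : (fun j => U j A) = fun j => U j B := funext fun j => propext (hUAB j)
    rw [h2, h3]
  · have h3 : ∀ n : ℕ, ∃ M : ℕ, 0 < n → ∀ (N : ℕ) (I : Finset (Fin N)),
        M ≤ I.card → ∀ F S : Finset (Finset (Cell d N)), Determined n n I F →
          1 / (n : ℝ) * 2 ^ (N ^ d) ≤ (F.card : ℝ) →
            (1 / 2 + 1 / (n : ℝ)) * (F.card : ℝ) ≤ ((F ∩ S).card : ℝ) → Good S := by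
      intro n
      by_cases hn : 0 < n
      · have hn' : (0 : ℝ) < n := by exact_mod_cast hn
        obtain ⟨M, hM⟩ := h1 n n (1 / (n : ℝ)) (1 / (n : ℝ)) (by positivity) (by positivity)
        exact ⟨M, fun _ => hM⟩
      · exact ⟨0, fun h => absurd h hn⟩
    choose M hM using h3
    refine ⟨fun N => Nat.findGreatest (fun n => M n ≤ N) N, ?_, ?_⟩
    · rw [tendsto_atTop]
      intro n
      filter_upwards [eventually_ge_atTop (max n (M n))] with N hN
      exact Nat.le_findGreatest ((le_max_left _ _).trans hN) ((le_max_right _ _).trans hN)
    · intro N F S hF hFc hFS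
      simp only at hF hFc hFS
      set n : ℕ := Nat.findGreatest (fun n => M n ≤ N) N with hn
      have hn0 : n ≠ 0 := by
        intro h
        rw [h, Nat.cast_zero, zero_mul] at hFc
        have : (0 : ℝ) < 2 ^ (N ^ d) := by positivity
        linarith
      have hn1 : 0 < n := Nat.pos_of_ne_zero hn0
      have hn2 : (0 : ℝ) < n := by exact_mod_cast hn1
      have hMn : M n ≤ N :=
        Nat.findGreatest_of_ne_zero (P := fun n => M n ≤ N) (n := N) hn.symm hn0
      refine hM n hn1 N univ (by rw [card_univ, Fintype.card_fin]; exact hMn) F S hF ?_ hFS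
      rw [one_div_mul_eq_div, div_le_iff₀ hn2]
      linarith

end Pool.Agent.Results.MP_90b327_co.CountFamilies
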