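import Pool.Agent.J6H88.PHJ.Low

/-!
# The restricted density polynomial Hales-Jewett conjecture for formulas, decision trees and families with
few alternations

A family `S` of subsets of `[N]^d` is good if it contains `A` and `A ∪ γ^d` for some nonempty `γ ⊆ [N]` with
`A ∩ γ^d = ∅`. The `N` cells `(x, …, x)` are called diagonal cells. We show that a family whose
dependence on the `N` diagonal cells is simple, in one of the following senses, is good, in every dimension
`d ≥ 1` and for every positive density. The dependence on the other `N^d - N` cells is arbitrary. Let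
`δ` be the density of `S`, that is `|S| = δ 2^(N^d)`.

(1) `S` is decided by a De Morgan formula (gates AND, OR; leaves: literals of diagonal cells and arbitrary
functions of the contents of the other cells) with fewer than `N² δ / (1 - δ)` leaves which are literals of
diagonal cells. For instance a formula of any size in which each diagonal cell occurs at most `δ N` times.

(2) `S` is decided by decision trees for the diagonal cells, which may depend on the contents of the other
cells, with an average of less than `2 δ N` queries.

(3) Along increasing sequences of sets with the same contents of the other cells, the membership in `S`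
changes at most `K` times, and `(K/2 + 1) C(N, N/2) 2^(-N) < δ`; so `K` may be of the order `δ √N`.

(4) `S` is decided by an adaptive procedure which asks at most `t` questions (is `A` in `U`?), where `U` is
closed under adding diagonal cells, and `2^(t-1) C(N, N/2) 2^(-N) < δ`; so `t` may be `½ log N - log (1/δ) - O(1)`.
This contains all families which are decided by circuits, of any size, with at most `t - 1` negation gates
(Markov): ask for the inputs of the negation gates one after the other, and finally for the output.

In all cases there is a pair with `|γ| = 1`. The starting results treat bounded numbers of readings of each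
cell (machines, branching programs, matrix programs of bounded width), circuits of constant depth, and
functions of small degree.

Proof. If there is no pair with `|γ| = 1`, then for all contents of the other cells the slice `T` of `S` is an
independent set of the `N`-dimensional cube. (1) is then Khrapchenko's method: `T` and its complement are
joined by `N |T|` edges, so each formula for `T` has at least `(N |T|)² / (|T| (2^N - |T|))` leaves. (2) The
sum of the sensitivities is `2 N |T|`. (3) A chain of `k + 1` members of `T` can be refined to a sequence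
with `2 k` changes, so `T` is a union of `K/2 + 1` antichains; Sperner's theorem. (4) follows from (3).
-/

set_option autoImplicit false

namespace Pool.Agent.Results.MP_90b327_co.LowComplexity

open Finset

/-- The cells of `[N]^d`. -/
abbrev Cell (d N : ℕ) : Type := Fin d → Fin N

/-- A family `S` of subsets of `[N]^d` is good if there are `A ∈ S` and a nonempty `γ ⊆ [N]` with
`A ∩ γ^d = ∅` and `A ∪ γ^d ∈ S`. -/
def Good {d N : ℕ} (S : Finset (Finset (Cell d N))) : Prop :=
  ∃ A ∈ S, ∃ γ : Finset (Fin N), γ.Nonempty ∧
    Disjoint A (Fintype.piFinset (fun _ : Fin d => γ)) ∧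
    A ∪ Fintype.piFinset (fun _ : Fin d => γ) ∈ S

/-- The diagonal cell `(x, …, x)`. -/
def diag {d N : ℕ} (x : Fin N) : Cell d N := fun _ => x

/-- The set of the diagonal cells. -/
def diagonal (d N : ℕ) : Finset (Cell d N) := univ.image diag

/-- De Morgan formulas. `lit x b`: the diagonal cell of `x` is in `A` (`b = true`), or is not in `A`
(`b = false`); `free g`: an arbitrary function `g` of the contents `A \ diagonal` of the other cells. -/
inductive Formula (d N : ℕ)
  | lit (x : Fin N) (b : Bool)
  | free (g : Finset (Cell d N) → Bool)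
  | and (F G : Formula d N)
  | or (F G : Formula d N)

/-- The value of a formula. -/
def Formula.val {d N : ℕ} (A : Finset (Cell d N)) : Formula d N → Bool
  | .lit x b => decide (diag x ∈ A) == b
  | .free g => g (A \ diagonal d N)
  | .and F G => F.val A && G.val A
  | .or F G => F.val A || G.val A

/-- The number of the leaves which are literals of diagonal cells. -/
def Formula.size {d N : ℕ} : Formula d N → ℕ
  | .lit _ _ => 1
  | .free _ => 0
  | .and F G => F.size + G.size
  | .or F G => F.size + G.size

/-- Decision trees which query diagonal cells. -/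
inductive DecisionTree (N : ℕ)
  | leaf (b : Bool)
  | ask (x : Fin N) (no yes : DecisionTree N)

/-- The value of a decision tree. -/
def DecisionTree.val {d N : ℕ} (A : Finset (Cell d N)) : DecisionTree N → Bool
  | .leaf b => b
  | .ask x no yes => if diag x ∈ A then yes.val A else no.val A

/-- The number of the queries at `A`. -/
def DecisionTree.cost {d N : ℕ} (A : Finset (Cell d N)) : DecisionTree N → ℕ
  | .leaf _ => 0
  | .ask x no yes => 1 + if diag x ∈ A then yes.cost A else no.cost A

/-- Along increasing sequences of sets which differ in diagonal cells only, the membership in `S`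
changes at most `K` times. -/
def Alternates {d N : ℕ} (S : Finset (Finset (Cell d N))) (K : ℕ) : Prop :=
  ∀ A : ℕ → Finset (Cell d N), Monotone A → (∀ i, A i \ diagonal d N = A 0 \ diagonal d N) →
    ∀ m : ℕ, #((range m).filter fun i => ¬ (A i ∈ S ↔ A (i + 1) ∈ S)) ≤ K

/-- Procedures which ask whether `A` is in a family `U`. -/
inductive QueryTree (d N : ℕ)
  | leaf (b : Bool)
  | ask (U : Finset (Finset (Cell d N))) (no yes : QueryTree d N)

/-- The value at `A`. -/
def QueryTree.val {d N : ℕ} (A : Finset (Cell d N)) : QueryTree d N → Bool
  | .leaf b => b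
  | .ask U no yes => if A ∈ U then yes.val A else no.val A

/-- The greatest number of questions. -/
def QueryTree.depth {d N : ℕ} : QueryTree d N → ℕ
  | .leaf _ => 0
  | .ask _ no yes => 1 + max no.depth yes.depth

/-- All families which are asked for are closed under adding diagonal cells. -/
def QueryTree.Monotone {d N : ℕ} : QueryTree d N → Prop
  | .leaf _ => True
  | .ask U no yes => (∀ A ∈ U, ∀ x : Fin N, insert (diag x) A ∈ U) ∧ no.Monotone ∧ yes.Monotone

/-! ### Proofs -/

open Pool.Agent.J6H88.PHJ

variable {d N : ℕ}

/-- the embedding of the diagonal cells -/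
def emb (hd : 1 ≤ d) : Fin N ↪ Cell d N :=
  ⟨diag, fun _ _ h => congrFun h ⟨0, hd⟩⟩

lemma rng_emb (hd : 1 ≤ d) : rng (emb (N := N) hd) = diagonal d N := by
  rw [rng, Finset.map_eq_image]
  rfl

lemma isolated (hd : 1 ≤ d) {S : Finset (Finset (Cell d N))} (hS : ¬ Good S) :
    Isolated (emb hd) S := by
  intro A hA x hx h
  refine hS ⟨A, hA, {x}, singleton_nonempty x, ?_, ?_⟩
  · rw [Fintype.piFinset_singleton, disjoint_singleton_right]
    exact hx
  · rw [Fintype.piFinset_singleton, union_comm, ← insert_eq]
    exact h

lemma card_cell : Fintype.card (Cell d N) = N ^ d := by simp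

lemma pow_eq (hd : 1 ≤ d) : 2 ^ (N ^ d - N) * 2 ^ N = 2 ^ (N ^ d) := by
  rw [← pow_add, Nat.sub_add_cancel]
  exact Nat.le_self_pow (by omega) N

lemma card_blocks (hd : 1 ≤ d) : #((rng (emb (N := N) hd))ᶜ).powerset = 2 ^ (N ^ d - N) := by
  rw [card_contents, card_cell]

lemma sdiff_eq (hd : 1 ≤ d) {B : Finset (Cell d N)} (hB : B ∈ ((rng (emb (N := N) hd))ᶜ).powerset)
    (D : Finset (Fin N)) : (B ∪ D.map (emb hd)) \ diagonal d N = B := by
  rw [← rng_emb hd]
  exact union_sdiff _ (mem_powerset.1 hB) D

lemma diag_mem (hd : 1 ≤ d) {B : Finset (Cell d N)} (hB : B ∈ ((rng (emb (N := N) hd))ᶜ).powerset)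
    (D : Finset (Fin N)) (x : Fin N) : diag x ∈ B ∪ D.map (emb hd) ↔ x ∈ D :=
  mem_union_iff (emb hd) (mem_powerset.1 hB) D x

/-- translation of formulas -/
def toFm : Formula d N → Fm N (Finset (Cell d N))
  | .lit x b => .lit x b
  | .free g => .free g
  | .and F G => .and (toFm F) (toFm G)
  | .or F G => .or (toFm F) (toFm G)

lemma toFm_val (hd : 1 ≤ d) {B : Finset (Cell d N)}
    (hB : B ∈ ((rng (emb (N := N) hd))ᶜ).powerset) (D : Finset (Fin N)) (F : Formula d N) :
    F.val (B ∪ D.map (emb hd)) = (toFm F).val B D := by
  induction F with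
  | lit x b =>
    simp only [Formula.val, toFm, Fm.val]
    rw [decide_eq_decide.2 (diag_mem hd hB D x)]
  | free g =>
    simp only [Formula.val, toFm, Fm.val]
    rw [sdiff_eq hd hB]
  | and F G ihF ihG => simp only [Formula.val, toFm, Fm.val, ihF, ihG]
  | or F G ihF ihG => simp only [Formula.val, toFm, Fm.val, ihF, ihG]

lemma toFm_size (F : Formula d N) : (toFm F).size = F.size := by
  induction F with
  | lit x b => rfl
  | free g => rfl
  | and F G ihF ihG => simp only [Formula.size, toFm, Fm.size, ihF, ihG]
  | or F G ihF ihG => simp only [Formula.size, toFm, Fm.size, ihF, ihG]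

/-- translation of decision trees -/
def toTr : DecisionTree N → Tr N
  | .leaf b => .leaf b
  | .ask x no yes => .ask x (toTr no) (toTr yes)

lemma toTr_val (hd : 1 ≤ d) {B : Finset (Cell d N)}
    (hB : B ∈ ((rng (emb (N := N) hd))ᶜ).powerset) (D : Finset (Fin N)) (T : DecisionTree N) :
    T.val (B ∪ D.map (emb hd)) = (toTr T).val D := by
  induction T with
  | leaf b => rfl
  | ask x no yes ih1 ih2 =>
    simp only [DecisionTree.val, toTr, Tr.val, ih1, ih2, diag_mem hd hB D x]

lemma toTr_cost (hd : 1 ≤ d) {B : Finset (Cell d N)}
    (hB : B ∈ ((rng (emb (N := N) hd))ᶜ).powerset) (D : Finset (Fin N)) (T : DecisionTree N) :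
    T.cost (B ∪ D.map (emb hd)) = (toTr T).cost D := by
  induction T with
  | leaf b => rfl
  | ask x no yes ih1 ih2 =>
    simp only [DecisionTree.cost, toTr, Tr.cost, ih1, ih2, diag_mem hd hB D x]

lemma alternates_le (hd : 1 ≤ d) {S : Finset (Finset (Cell d N))} {K : ℕ} (hK : Alternates S K)
    (h : (K / 2 + 1) * N.choose (N / 2) * 2 ^ (N ^ d - N) < #S) : Good S := by
  classical
  by_contra hS
  have hI := isolated hd hS
  refine absurd h (not_lt.2 ?_)
  rw [card_slices (emb hd) S]
  refine (sum_le_card_nsmul _ _ ((K / 2 + 1) * N.choose (N / 2)) fun B hB => ?_).trans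
    (le_of_eq ?_)
  · refine alt_le (fun D hD x => slice_indep (emb hd) hI (mem_powerset.1 hB) hD x) ?_
    intro A hA m
    have h1 := hK (fun i => B ∪ (A i).map (emb hd)) (fun i j hij =>
      union_subset_union (Subset.refl B) (map_subset_map.2 (hA hij))) (fun i => by
        rw [sdiff_eq hd hB, sdiff_eq hd hB]) m
    refine le_trans (le_of_eq ?_) h1
    unfold changes
    congr 1
    ext i
    simp only [mem_filter, J6H88.PHJ.mem_slice]
    refine and_congr_right fun _ => ?_
    rw [Ne, decide_eq_decide]
  · rw [card_blocks hd, smul_eq_mul]
    ring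

lemma up_closed {U : Finset (Finset (Cell d N))}
    (hU : ∀ A ∈ U, ∀ x : Fin N, insert (diag x) A ∈ U) (A : Finset (Cell d N))
    (hA : A ∈ U) : ∀ R : Finset (Cell d N), R ⊆ diagonal d N → R ∪ A ∈ U := by
  intro R
  induction R using Finset.induction_on with
  | empty => intro _; simpa using hA
  | insert e R _ ih =>
    intro hR
    rw [insert_union]
    obtain ⟨x, _, rfl⟩ := mem_image.1 (hR (mem_insert_self e R))
    exact hU _ (ih ((subset_insert _ _).trans hR)) x

lemma changes_tree (T : QueryTree d N) (hT : T.Monotone) (A : ℕ → Finset (Cell d N))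
    (hA : Monotone A) (hA' : ∀ i, A i \ diagonal d N = A 0 \ diagonal d N) (m : ℕ) :
    changes (fun i => T.val (A i)) m ≤ 2 ^ T.depth - 1 := by
  classical
  induction T with
  | leaf b => simp [changes, QueryTree.val]
  | ask U no yes ih1 ih2 =>
    have h1 := ih1 hT.2.1
    have h2 := ih2 hT.2.2
    have h3 : changes (fun i => decide (A i ∈ U)) m ≤ 1 := by
      refine (changes_mono (fun i hi => ?_) m).trans (by split_ifs <;> omega)
      rw [decide_eq_true_eq] at hi ⊢
      have h4 := up_closed hT.1 (A i) hi (A (i + 1) \ A i) ?_
      · rwa [sdiff_union_of_subset (hA (Nat.le_succ i))] at h4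
      · intro e he
        rw [mem_sdiff] at he
        by_contra hcon
        have h5 : e ∈ A (i + 1) \ diagonal d N := mem_sdiff.2 ⟨he.1, hcon⟩
        rw [hA' (i + 1), ← hA' i] at h5
        exact he.2 (mem_sdiff.1 h5).1
    have h4 := changes_ite (q := fun i => decide (A i ∈ U)) (f := fun i => yes.val (A i))
      (g := fun i => no.val (A i)) m
    have h5 : (fun i => (QueryTree.ask U no yes).val (A i)) =
        fun i => if decide (A i ∈ U) = true then yes.val (A i) else no.val (A i) := by
      funext i
      simp only [QueryTree.val, decide_eq_true_eq]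
    rw [h5]
    refine h4.trans ?_
    have h6 : 2 ^ no.depth ≤ 2 ^ max no.depth yes.depth :=
      Nat.pow_le_pow_right (by norm_num) (le_max_left _ _)
    have h7 : 2 ^ yes.depth ≤ 2 ^ max no.depth yes.depth :=
      Nat.pow_le_pow_right (by norm_num) (le_max_right _ _)
    have h8 : 1 ≤ 2 ^ no.depth := Nat.one_le_two_pow
    have h9 : 1 ≤ 2 ^ yes.depth := Nat.one_le_two_pow
    simp only [QueryTree.depth]
    rw [pow_add, pow_one]
    omega

/-- **Theorem.** Let `d ≥ 1` and let `S` be a family of subsets of `[N]^d`. Each of the following
conditions implies that `S` is good. Put `|S| = δ 2^(N^d)`.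
(1) `S` is decided by a De Morgan formula with fewer than `N² δ / (1 - δ)` leaves which are literals of
diagonal cells; its other leaves are arbitrary functions of the contents of the other cells.
(2) `S` is decided by decision trees for the diagonal cells, which depend in any way on the contents of
the other cells, with less than `2 δ N` queries on average.
(3) Along increasing sequences of sets which differ in diagonal cells only the membership in `S`
changes at most `K` times, and `(K/2 + 1) C(N, N/2) < δ 2^N`.
(4) `S` is decided by a procedure which asks at most `t` questions (is `A` in `U`?), with families `U`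
closed under adding diagonal cells, and `2^(t-1) C(N, N/2) < δ 2^N`. -/
theorem result (d N : ℕ) (hd : 1 ≤ d) (S : Finset (Finset (Cell d N))) :
    (∀ F : Formula d N, (∀ A, A ∈ S ↔ F.val A = true) →
      F.size * (2 ^ (N ^ d) - #S) < N ^ 2 * #S → Good S) ∧
    (∀ T : Finset (Cell d N) → DecisionTree N,
      (∀ A, A ∈ S ↔ (T (A \ diagonal d N)).val A = true) →
      ∑ A : Finset (Cell d N), (T (A \ diagonal d N)).cost A < 2 * N * #S → Good S) ∧
    (∀ K : ℕ, Alternates S K → (K / 2 + 1) * N.choose (N / 2) * 2 ^ (N ^ d - N) < #S → Good S) ∧
    (∀ T : QueryTree d N, T.Monotone → (∀ A, A ∈ S ↔ T.val A = true) →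
      2 ^ (T.depth - 1) * N.choose (N / 2) * 2 ^ (N ^ d - N) < #S → Good S) := by
  classical
  refine ⟨?_, ?_, fun K hK h => alternates_le hd hK h, ?_⟩
  · intro F hF h
    by_contra hS
    have hI := isolated hd hS
    refine absurd h (not_lt.2 ?_)
    have hle : ∀ B ∈ ((rng (emb (N := N) hd))ᶜ).powerset,
        N ^ 2 * #(slice (emb hd) S B) ≤ F.size * (2 ^ N - #(slice (emb hd) S B)) := by
      intro B hB
      have h1 := Fm.indep_le B (toFm F) (T := slice (emb hd) S B) (fun D => by
        rw [J6H88.PHJ.mem_slice, hF, toFm_val hd hB]) (fun D hD x =>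
          slice_indep (emb hd) hI (mem_powerset.1 hB) hD x)
      rwa [toFm_size] at h1
    have hsl : ∀ B ∈ ((rng (emb (N := N) hd))ᶜ).powerset, #(slice (emb hd) S B) ≤ 2 ^ N := by
      intro B _
      refine (card_le_univ _).trans (le_of_eq ?_)
      rw [Fintype.card_finset, Fintype.card_fin]
    calc N ^ 2 * #S = ∑ B ∈ ((rng (emb (N := N) hd))ᶜ).powerset,
          N ^ 2 * #(slice (emb hd) S B) := by
          rw [card_slices (emb hd) S, mul_sum]
      _ ≤ ∑ B ∈ ((rng (emb (N := N) hd))ᶜ).powerset,
          F.size * (2 ^ N - #(slice (emb hd) S B)) := sum_le_sum hle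
      _ = F.size * (2 ^ (N ^ d) - #S) := by
          rw [← mul_sum, sum_tsub_distrib _ hsl, sum_const, card_blocks hd, smul_eq_mul, pow_eq hd,
            ← card_slices (emb hd) S]
  · intro T hT h
    by_contra hS
    have hI := isolated hd hS
    refine absurd h (not_lt.2 ?_)
    rw [sum_slices (emb hd)]
    calc 2 * N * #S = ∑ B ∈ ((rng (emb (N := N) hd))ᶜ).powerset,
          2 * N * #(slice (emb hd) S B) := by
          rw [card_slices (emb hd) S, mul_sum]
      _ ≤ _ := by
          refine sum_le_sum fun B hB => ?_
          have h1 := Tr.indep_le (toTr (T B)) (S := slice (emb hd) S B) (fun D => by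
            rw [J6H88.PHJ.mem_slice, hT, sdiff_eq hd hB, toTr_val hd hB]) (fun D hD x =>
              slice_indep (emb hd) hI (mem_powerset.1 hB) hD x)
          refine h1.trans (le_of_eq (sum_congr rfl fun D _ => ?_))
          rw [sdiff_eq hd hB, toTr_cost hd hB]
  · intro T hT hS h
    refine alternates_le hd (K := 2 ^ T.depth - 1) ?_ ?_
    · intro A hA hA' m
      refine le_trans (le_of_eq ?_) (changes_tree T hT A hA hA' m)
      unfold changes
      congr 1
      ext i
      simp only [mem_filter]
      refine and_congr_right fun _ => ?_
      rw [hS, hS]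
      exact not_congr Bool.eq_iff_iff.symm
    · have h1 : (2 ^ T.depth - 1) / 2 + 1 = 2 ^ (T.depth - 1) ∨ T.depth = 0 := by
        rcases Nat.eq_zero_or_pos T.depth with h0 | h0
        · exact Or.inr h0
        · left
          obtain ⟨t, ht⟩ : ∃ t, T.depth = t + 1 := ⟨T.depth - 1, by omega⟩
          rw [ht, Nat.add_sub_cancel, pow_succ]
          have : 1 ≤ 2 ^ t := Nat.one_le_two_pow
          omega
      rcases h1 with h1 | h1
      · rw [h1]
        exact h
      · rw [h1] at h ⊢
        simpa using h

end Pool.Agent.Results.MP_90b327_co.LowComplexity
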