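import Pool.Agent.J6H21.AS.Deg
import Pool.Agent.J6H21.AS.Trans
import Pool.Agent.J6H53.PB.Thr
import Pool.Agent.TH635.PH.Thr
import Pool.Agent.Results.MP_90b327_co.FourCycleThreshold

/-!
# The restricted density polynomial Hales-Jewett conjecture for intersections of exponentially many
unate families, and for combinations of conditions `h > 0` with `h` of bounded order

Let `K` be a set of cells. A family `U` is unate in `K` if, for each `c` in `K` and given contents of the cells
outside `K`, the sets in `U` remain in `U` when `c` is added, or they remain in `U` when `c` is removed. (Examples: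
`U` closed under adding the cells in `K`; `U` defined by a linear inequality for the contents of the cells in `K`, with
coefficients which depend on the contents of the other cells.) A condition of order `D ≥ 1` in `K` is a condition
`0 < h A` such that for given contents of the cells outside `K` all differences of order `D` of the real function
`h` with respect to cells in `K` have constant sign; for example `h` can be a polynomial of degree at most `D` in the
contents of the cells in `K`, with coefficients depending on the other cells, and unate families are given by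
conditions of order one. A combination with bound `β` is a family `F` which is a Boolean combination of some families
`V_1, …, V_r` (for given contents of the cells outside `K`; the combination may depend on them), `V_j` being the
intersection of `k_j` conditions of order `D_j`, where the sum of the numbers `√(2 log (2 k_j) / N)` for `D_j = 1` and
`√(3 k_j) N^(-2^(-D_j))` for `D_j ≥ 2` is at most `β`. So `k_j` may be exponential in `N` for `D_j = 1`.

(1) Let `|S| = δ 2^(N^d)`, `δ > 0`. If `S` is the intersection of `k` families which are unate in the diagonal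
`{(x, …, x)}` (the dependence on the other `N^d - N` cells being arbitrary) and `2 k < exp (δ² N / 2)`, then `S` is good.

(2) If `F` is a combination in the diagonal with bound `β`, and `|F| + β 2^(N^d) < 2 |S ∩ F|`, then `S` is good. For
`S = F` this is the condition `β 2^(N^d) < |F|`.

(3) If the conjecture holds in dimension `d` for all densities above `θ`, and `θ' > θ`, then there is `c > 0` such that
for all large `N`, every combination `F` in `[N]^d` (all cells) with bound `β`, and `β 2^(N^d) ≤ c |F|`, every
`S` with `|S ∩ F| > θ' |F|` is good. So Q1 implies its relative form, for all positive relative densities, inside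
these families.

(4) The conclusion of (3) holds for every `θ' > threshold d`: `0` for `d = 1`, `0.306564` for `d = 2` (from
`BlockCorrelationThreshold`), `2^(d-2)/(2^(d-1) + 1)` for `d ≥ 3` (from `FourCycleThreshold`).

The starting result `SignsAndPolynomials` treats Boolean combinations of a bounded number of conditions of bounded
order in `[N]^d` (together with polynomials with values in a finite group), for `N` large in terms of all data;
`SmallBoundaryFamilies` has the relative form for families with `o(N)` boundary in the directions of all cells.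

Proof. If there is no pair with `|γ| = 1` the boundary of `S` in the directions of the diagonal cells has `N |S|`
edges. The boundary of an intersection of conditions is bounded by the argument of Kane (2014) for
intersections of unate functions: if `g_i` is the direction in which the condition becomes true by a change of the
`i`-th cell, the `m`-th condition increases the boundary by at most the sum of `|∑ s_i g_i|` over the sets
which violate the `m`-th condition as the first one, `s_i = ± 1` telling whether the `i`-th cell belongs to the set.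
For unate families `∑ s_i g_i` has Gaussian tails. For conditions of order `D ≥ 2` the second moment of
`∑ s_i g_i` is bounded by the sensitivities of the conditions `0 < (difference of h)` of order `D - 1` (the argument
of Diakonikolas, Raghavendra, Servedio and Tan for polynomial threshold functions). In (3) only the `O(N)`
cells of `N / m` disjoint diagonal blocks `I^d` with `|I| = m` matter: most sets of `F` stay in `F` when they are changed
arbitrarily inside a suitable block.
-/

set_option autoImplicit false

namespace Pool.Agent.Results.MP_90b327_co.ManyConditions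

open Finset

/-- `cube d γ` is `γ^d`, the set of all `d`-tuples with entries in `γ`. -/
def cube {N : ℕ} (d : ℕ) (γ : Finset (Fin N)) : Finset (Fin d → Fin N) :=
  Fintype.piFinset (fun _ : Fin d => γ)

/-- A family `S` of subsets of `[N]^d` is good if there are `A ∈ S` and a nonempty `γ ⊆ [N]` with
`A ∩ γ^d = ∅` and `A ∪ γ^d ∈ S`. -/
def Good {N d : ℕ} (S : Finset (Finset (Fin d → Fin N))) : Prop :=
  ∃ A ∈ S, ∃ γ : Finset (Fin N), γ.Nonempty ∧ Disjoint A (cube d γ) ∧ A ∪ cube d γ ∈ S

/-- The cells `(x, …, x)`. -/
def diagonal (d N : ℕ) : Finset (Fin d → Fin N) := univ.image fun x _ => x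

section definitions

variable {E : Type} [DecidableEq E]

/-- For each cell `c` in `K` and given contents `B` of the cells outside `K`, `U` is closed under adding `c`, or `U` is
closed under removing `c`. -/
def Unate (K : Finset E) (U : Set (Finset E)) : Prop :=
  ∀ c ∈ K, ∀ B : Finset E,
    (∀ A ∈ U, A \ K = B → insert c A ∈ U) ∨ (∀ A ∈ U, A \ K = B → A.erase c ∈ U)

/-- The difference of `h` with respect to the cell `c`. -/
def diff (c : E) (h : Finset E → ℝ) (A : Finset E) : ℝ := h (insert c A) - h (A.erase c)

/-- For given contents of the cells outside `K`, all differences of `h` of order `D` with respect to cells in `K` have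
constant sign. -/
def Order (K : Finset E) : ℕ → (Finset E → ℝ) → Prop
  | 0, h => ∀ B, (∀ A, A \ K = B → 0 ≤ h A) ∨ (∀ A, A \ K = B → h A ≤ 0)
  | D + 1, h => ∀ c ∈ K, Order K D (diff c h)

/-- The bound for an intersection of `k` conditions of order `D`. -/
noncomputable def bound (N k D : ℕ) : ℝ :=
  if D = 1 then Real.sqrt (2 * Real.log (2 * k) / N)
  else Real.sqrt (3 * k) * (N : ℝ) ^ (-((1 : ℝ) / 2) ^ D)

/-- `F` is, for given contents of the cells outside `K`, a Boolean combination `R` of families `V_1, …, V_r`, where
`V_j` is the intersection of `k_j` conditions `0 < h A` with `h` of order `D_j`, and the sum of the bounds is at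
most `β`. -/
def Combination (N : ℕ) (K : Finset E) (F : Finset (Finset E)) (β : ℝ) : Prop :=
  ∃ (r : ℕ) (k D : Fin r → ℕ) (h : ∀ j, Fin (k j) → Finset E → ℝ)
    (R : Finset E → (Fin r → Prop) → Prop),
    (∀ j, 1 ≤ D j) ∧ (∀ j i, Order K (D j) (h j i)) ∧
    (∀ A, A ∈ F ↔ R (A \ K) (fun j => ∀ i, 0 < h j i A)) ∧ ∑ j, bound N (k j) (D j) ≤ β

end definitions

/-- The conjecture holds in dimension `d` for all densities above `θ`; `Q1` is the statement that
`Above d 0` holds for all `d ≥ 1`. -/
def Above (d : ℕ) (θ : ℝ) : Prop :=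
  ∀ δ : ℝ, θ < δ → ∃ N : ℕ, 1 ≤ N ∧ ∀ S : Finset (Finset (Fin d → Fin N)),
    δ * (2 : ℝ) ^ (N ^ d) < S.card → Good S

/-- Inside every combination `F` of conditions with bound `β`, where `β 2^(N^d) ≤ c |F|`, the relative density
`θ'` is enough. -/
def Relative (d : ℕ) (θ' : ℝ) : Prop :=
  ∃ c : ℝ, 0 < c ∧ ∃ N₀ : ℕ, ∀ N : ℕ, N₀ ≤ N → ∀ (F S : Finset (Finset (Fin d → Fin N))) (β : ℝ),
    Combination N univ F β → β * 2 ^ (N ^ d) ≤ c * F.card → θ' * F.card < (S ∩ F).card → Good S

/-- A density above which the conjecture is known: `0` for `d = 1`, `0.306564` for `d = 2`, and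
`2^(d-2)/(2^(d-1)+1)` for `d ≥ 3`. -/
noncomputable def threshold (d : ℕ) : ℝ :=
  if d = 1 then 0 else if d = 2 then 306564 / 1000000 else (2 : ℝ) ^ (d - 2) / (2 ^ (d - 1) + 1)

/-! ### Proofs -/

section general

open Classical Pool.Agent.N389.PH.Exact

variable {E : Type} [Fintype E] [DecidableEq E]

/-- the flips of the cells in `K` -/
noncomputable def flips (K : Finset E) :
    Pool.Agent.J6H21.AS.Flips (Finset E) {c : E // c ∈ K} where
  φ := fun c A => fl A c
  s := fun c A => if (c : E) ∈ A then 1 else -1
  inv := fun c A => fl_fl A c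
  s_self := by
    intro c A
    simp only [mem_fl]
    by_cases h : (c : E) ∈ A <;> simp [h]
  s_ne := by
    intro c c' A hc
    have hne : (c' : E) ≠ c := fun h => hc (Subtype.ext h.symm)
    have : ((c' : E) ∈ fl A c) ↔ (c' : E) ∈ A := by
      simp [fl, mem_symmDiff, hne]
    simp only [this]
  s_abs := by
    intro c A
    split_ifs <;> simp

lemma sdiff_fl {K : Finset E} {c : E} (hc : c ∈ K) (A : Finset E) : fl A c \ K = A \ K := by
  ext x
  simp only [fl, mem_sdiff, mem_symmDiff, mem_singleton]
  constructor
  · rintro ⟨h1 | h1, h2⟩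
    · exact ⟨h1.1, h2⟩
    · exact absurd (h1.1 ▸ hc) h2
  · rintro ⟨h1, h2⟩
    exact ⟨Or.inl ⟨h1, fun h => h2 (h ▸ hc)⟩, h2⟩

lemma diff_eq (K : Finset E) (c : {c : E // c ∈ K}) (h : Finset E → ℝ) :
    (flips K).diff c h = diff (c : E) h := by
  funext A
  change (if (c : E) ∈ A then (1 : ℝ) else -1) * (h A - h (fl A c)) = _
  unfold diff
  by_cases hA : (c : E) ∈ A
  · rw [if_pos hA, fl_mem hA, insert_eq_of_mem hA, one_mul]
  · rw [if_neg hA, fl_notMem hA, erase_eq_of_notMem hA]; ring

lemma cs_of_order {K K' : Finset E} (hK : K' ⊆ K) (D : ℕ) : ∀ h : Finset E → ℝ, Order K D h →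
    (flips K').CS D h := by
  induction D with
  | zero =>
    intro h hh
    refine ⟨fun A => if ∀ A', A' \ K = A \ K → 0 ≤ h A' then 1 else -1, ?_, ?_, ?_⟩
    · intro A
      dsimp only
      split_ifs <;> simp
    · intro x A
      change (if ∀ A', A' \ K = (fl A x) \ K → 0 ≤ h A' then (1 : ℝ) else -1) = _
      rw [sdiff_fl (hK x.2)]
    · intro A
      dsimp only
      split_ifs with h1
      · rw [one_mul]; exact h1 A rfl
      · rcases hh (A \ K) with h2 | h2
        · exact absurd h2 h1
        · have := h2 A rfl
          linarith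
  | succ D ih =>
    intro h hh x
    rw [diff_eq]
    exact ih _ (hh x (hK x.2))

lemma order_of_unate {K : Finset E} {U : Set (Finset E)} (hU : Unate K U) :
    Order K 1 (fun A => if A ∈ U then (1 : ℝ) else 0) := by
  intro c hc B
  have key : ∀ A : Finset E, A.erase c \ K = A \ K ∧ insert c A \ K = A \ K := by
    intro A
    constructor
    · ext x; simp only [mem_sdiff, mem_erase]
      constructor
      · rintro ⟨⟨_, h1⟩, h2⟩; exact ⟨h1, h2⟩
      · rintro ⟨h1, h2⟩; exact ⟨⟨fun h => h2 (h ▸ hc), h1⟩, h2⟩
    · ext x; simp only [mem_sdiff, mem_insert]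
      constructor
      · rintro ⟨h1 | h1, h2⟩
        · exact absurd (h1 ▸ hc) h2
        · exact ⟨h1, h2⟩
      · rintro ⟨h1, h2⟩; exact ⟨Or.inr h1, h2⟩
  rcases hU c hc B with h | h
  · left
    intro A hA
    unfold diff
    by_cases h1 : A.erase c ∈ U
    · have h2 := h (A.erase c) h1 ((key A).1.trans hA)
      have e : insert c (A.erase c) = insert c A := by
        ext x; by_cases hx : x = c <;> simp [hx]
      rw [e] at h2
      simp [h1, h2]
    · simp only [h1, if_false, sub_zero]
      split_ifs <;> norm_num
  · right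
    intro A hA
    unfold diff
    by_cases h1 : insert c A ∈ U
    · have h2 := h (insert c A) h1 ((key A).2.trans hA)
      have e : (insert c A).erase c = A.erase c := by
        ext x; by_cases hx : x = c <;> simp [hx]
      rw [e] at h2
      simp [h1, h2]
    · simp only [h1, if_false, zero_sub]
      split_ifs <;> norm_num

lemma bd_eq (K : Finset E) (F : Finset (Finset E)) :
    (flips K).bd (F : Set (Finset E)) = ((bd F K).card : ℝ) := by
  unfold Pool.Agent.J6H21.AS.Flips.bd bd
  rw [card_filter, sum_product, Nat.cast_sum]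
  rw [← Finset.sum_subset (subset_univ F)]
  · refine Finset.sum_congr rfl fun A hA => ?_
    rw [Nat.cast_sum, ← Finset.sum_coe_sort K]
    refine Finset.sum_congr rfl fun c _ => ?_
    by_cases h : fl A c ∈ F
    · rw [if_neg, if_neg (not_not.2 h)]
      · simp
      · rintro ⟨_, h2⟩
        exact h2 (Finset.mem_coe.2 h)
    · rw [if_pos, if_pos h]
      · simp
      · exact ⟨Finset.mem_coe.2 hA, fun h2 => h (Finset.mem_coe.1 h2)⟩
  · intro A _ hA
    refine Finset.sum_eq_zero fun c _ => ?_
    rw [if_neg]
    rintro ⟨h1, _⟩
    exact hA (Finset.mem_coe.1 h1)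

lemma bound_nonneg (N k D : ℕ) : 0 ≤ bound N k D := by
  unfold bound
  split_ifs <;> positivity

lemma sqrt_scale {n N s L : ℝ} (hn : 0 < n) (hN : 0 < N) (hs : 1 ≤ s) (hL : 0 ≤ L)
    (h : n ≤ s * N) : n * Real.sqrt (L / n) ≤ s * N * Real.sqrt (L / N) := by
  have hs0 : 0 < s := by linarith
  have e1 : n * Real.sqrt (L / n) = Real.sqrt (L * n) := by
    have e : L * n = n ^ 2 * (L / n) := by field_simp
    rw [e, Real.sqrt_mul (by positivity), Real.sqrt_sq hn.le]
  have e2 : s * N * Real.sqrt (L / N) = Real.sqrt (s * s * (L * N)) := by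
    have e : s * s * (L * N) = (s * N) ^ 2 * (L / N) := by field_simp
    rw [e, Real.sqrt_mul (by positivity), Real.sqrt_sq (by positivity)]
  rw [e1, e2]
  refine Real.sqrt_le_sqrt ?_
  have h6 : L * n ≤ L * (s * N) := mul_le_mul_of_nonneg_left h hL
  have h8 : 1 * (s * (L * N)) ≤ s * (s * (L * N)) :=
    mul_le_mul_of_nonneg_right hs (by positivity)
  linarith

/-- the boundary of a combination in the directions of `K'` -/
lemma comb_bound (N : ℕ) (hN : 1 ≤ N) {K K' : Finset E} (hK : K' ⊆ K) (s : ℝ) (hs : 1 ≤ s)
    (hsN : (K'.card : ℝ) ≤ s * N) (F : Finset (Finset E)) (β : ℝ) (hF : Combination N K F β) :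
    ((bd F K').card : ℝ) ≤ 2 ^ (Fintype.card E) * (s * N * β) := by
  obtain ⟨r, k, D, h, R, hD, hO, hR, hβ⟩ := hF
  have hNpos : (0 : ℝ) < N := by exact_mod_cast hN
  have hcard : Fintype.card {c : E // c ∈ K'} = K'.card := Fintype.card_coe K'
  have hcardΩ : (Fintype.card (Finset E) : ℝ) = 2 ^ (Fintype.card E) := by
    rw [Fintype.card_finset]; push_cast; rfl
  rw [← bd_eq]
  rcases Nat.eq_zero_or_pos K'.card with h0 | h0
  · have e : (flips K').bd (F : Set (Finset E)) = 0 := by
      rw [bd_eq, Finset.card_eq_zero.1 h0]; simp [bd]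
    rw [e]
    have : 0 ≤ β := le_trans (Finset.sum_nonneg fun j _ => bound_nonneg _ _ _) hβ
    positivity
  have hn1 : (1 : ℝ) ≤ K'.card := by exact_mod_cast h0
  have h2 := (flips K').comb r (fun j => {A | ∀ i, 0 < h j i A}) (F : Set (Finset E)) (by
      intro A c hA hAF
      have hAF' := Finset.mem_coe.1 hAF
      have : fl A c ∈ F := by
        rw [hR, sdiff_fl (hK c.2)]
        rw [hR] at hAF'
        have e : (fun j => ∀ i, 0 < h j i (fl A c)) = fun j => ∀ i, 0 < h j i A := by
          funext j
          exact propext (hA j).symm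
        rw [e]; exact hAF'
      exact Finset.mem_coe.2 this)
  have h3 : ∀ j, (flips K').bd {A | ∀ i, 0 < h j i A} ≤
      2 ^ (Fintype.card E) * (s * N * bound N (k j) (D j)) := by
    intro j
    obtain ⟨D', hD'⟩ : ∃ D', D j = D' + 1 := ⟨D j - 1, by have := hD j; omega⟩
    rcases Nat.eq_zero_or_pos (k j) with hk | hk
    · have e : {A : Finset E | ∀ i, 0 < h j i A} = Set.univ := by
        ext A
        simp only [Set.mem_ofPred_eq, Set.mem_univ, iff_true]
        intro i
        exact absurd i.2 (by omega)
      rw [e]
      have e1 : (flips K').bd (Set.univ : Set (Finset E)) = 0 := by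
        unfold Pool.Agent.J6H21.AS.Flips.bd; simp
      rw [e1]
      have := bound_nonneg N (k j) (D j)
      positivity
    · set h' : ℕ → Finset E → ℝ := fun m => if hm : m < k j then h j ⟨m, hm⟩ else 0
      have e : {A : Finset E | ∀ i, 0 < h j i A} = {A | ∀ m < k j, 0 < h' m A} := by
        ext A
        simp only [Set.mem_ofPred_eq]
        constructor
        · intro hA m hm
          simp only [h', dif_pos hm]
          exact hA _
        · intro hA i
          have := hA i.1 i.2
          simpa only [h', dif_pos i.2] using this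
      have hcs : ∀ m < k j, (flips K').CS (D j) (h' m) := by
        intro m hm
        simp only [h', dif_pos hm]
        exact cs_of_order hK _ _ (hO j _)
      rw [e]
      have hpow : (0 : ℝ) ≤ 2 ^ (Fintype.card E) := by positivity
      by_cases h1 : D j = 1
      · rw [h1] at hcs
        have h5 := (flips K').one_inter (by rw [hcard]; exact h0) (k j) hk h' hcs
        rw [hcard, hcardΩ] at h5
        refine h5.trans (mul_le_mul_of_nonneg_left ?_ hpow)
        rw [bound, if_pos h1]
        have hk1 : (1 : ℝ) ≤ k j := by exact_mod_cast hk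
        have hL : 0 ≤ 2 * Real.log (2 * (k j : ℝ)) := by
          have := Real.log_nonneg (show (1 : ℝ) ≤ 2 * (k j : ℝ) by linarith)
          linarith
        set L := 2 * Real.log (2 * (k j : ℝ))
        set n : ℝ := (K'.card : ℝ)
        exact sqrt_scale (by linarith) hNpos hs hL hsN
      · rw [hD'] at hcs
        have h5 := (flips K').deg_inter (by rw [hcard]; exact h0) D' (k j) hk h' hcs
        rw [hcard, hcardΩ] at h5
        refine h5.trans (mul_le_mul_of_nonneg_left ?_ hpow)
        rw [bound, if_neg h1, hD']
        set n : ℝ := (K'.card : ℝ)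
        set t : ℝ := ((1 : ℝ) / 2) ^ (D' + 1)
        have ht0 : 0 ≤ t := by positivity
        have ht1 : t ≤ 1 := pow_le_one₀ (by norm_num) (by norm_num)
        have hsq : 0 ≤ Real.sqrt (3 * (k j : ℝ)) := Real.sqrt_nonneg _
        have e1 : n * n ^ (-t) = n ^ (1 - t) := by
          rw [sub_eq_add_neg, Real.rpow_add (by linarith), Real.rpow_one]
        have e2 : (N : ℝ) * (N : ℝ) ^ (-t) = (N : ℝ) ^ (1 - t) := by
          rw [sub_eq_add_neg, Real.rpow_add hNpos, Real.rpow_one]
        have e3 : n ^ (1 - t) ≤ s * (N : ℝ) ^ (1 - t) := by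
          calc n ^ (1 - t) ≤ (s * N) ^ (1 - t) :=
                Real.rpow_le_rpow (by linarith) hsN (by linarith)
            _ = s ^ (1 - t) * (N : ℝ) ^ (1 - t) := Real.mul_rpow (by linarith) hNpos.le
            _ ≤ s * (N : ℝ) ^ (1 - t) := by
                refine mul_le_mul_of_nonneg_right ?_ (by positivity)
                calc s ^ (1 - t) ≤ s ^ (1 : ℝ) :=
                      Real.rpow_le_rpow_of_exponent_le hs (by linarith)
                  _ = s := Real.rpow_one s
        calc n * (Real.sqrt (3 * (k j : ℝ)) * n ^ (-t))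
            = Real.sqrt (3 * (k j : ℝ)) * (n * n ^ (-t)) := by ring
          _ ≤ Real.sqrt (3 * (k j : ℝ)) * (s * (N : ℝ) ^ (1 - t)) := by
              rw [e1]; exact mul_le_mul_of_nonneg_left e3 hsq
          _ = s * N * (Real.sqrt (3 * (k j : ℝ)) * (N : ℝ) ^ (-t)) := by rw [← e2]; ring
  refine h2.trans ((Finset.sum_le_sum fun j _ => h3 j).trans ?_)
  rw [← Finset.mul_sum, ← Finset.mul_sum]
  have h6 : s * N * ∑ j, bound N (k j) (D j) ≤ s * N * β :=
    mul_le_mul_of_nonneg_left hβ (by positivity)
  exact mul_le_mul_of_nonneg_left h6 (by positivity)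

end general

section cells

open Classical
open Pool.Agent.N389.PH.Exact (fl fl_fl mem_fl fl_mem fl_notMem bd)

variable {d N : ℕ}

lemma pair_good (S : Finset (Finset (Fin d → Fin N))) (hS : ¬ Good S)
    (c : Fin d → Fin N) (hc : c ∈ diagonal d N)
    (A : Finset (Fin d → Fin N)) (hA : A ∈ S) : fl A c ∉ S := by
  intro h
  obtain ⟨x, -, rfl⟩ := mem_image.1 hc
  have hcu : cube d ({x} : Finset (Fin N)) = {fun _ => x} := by
    ext c
    simp only [cube, Fintype.mem_piFinset, mem_singleton]
    constructor
    · intro h; funext i; exact h i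
    · intro h i; rw [h]
  apply hS
  by_cases hx : (fun _ => x : Fin d → Fin N) ∈ A
  · rw [fl_mem hx] at h
    refine ⟨_, h, {x}, singleton_nonempty x, ?_, ?_⟩
    · rw [hcu]; simp
    · rw [hcu, union_comm, ← insert_eq, insert_erase hx]; exact hA
  · rw [fl_notMem hx] at h
    refine ⟨A, hA, {x}, singleton_nonempty x, ?_, ?_⟩
    · rw [hcu]; simpa using hx
    · rw [hcu, union_comm, ← insert_eq]; exact h

lemma card_diagonal (hd : 1 ≤ d) : (diagonal d N).card = N := by
  rw [diagonal, card_image_of_injective, card_univ, Fintype.card_fin]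
  intro x y h
  exact congrFun h ⟨0, hd⟩

lemma part_two (hd : 1 ≤ d) (hN : 1 ≤ N) (F S : Finset (Finset (Fin d → Fin N))) (β : ℝ)
    (hF : Combination N (diagonal d N) F β)
    (h : (F.card : ℝ) + β * 2 ^ (N ^ d) < 2 * (S ∩ F).card) : Good S := by
  by_contra hgood
  have hNpos : (0 : ℝ) < N := by exact_mod_cast hN
  have h1 := comb_bound N hN (Finset.Subset.refl (diagonal d N)) 1 le_rfl
    (by rw [card_diagonal hd, one_mul]) F β hF
  rw [← bd_eq] at h1
  have h2 := (flips (diagonal d N)).half ((S ∩ F : Finset (Finset (Fin d → Fin N))) : Set _)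
    (F : Set (Finset (Fin d → Fin N)))
    (fun A hA => Finset.mem_coe.2 (mem_inter.1 (Finset.mem_coe.1 hA)).2)
    (fun A hA c h => pair_good S hgood c c.2 A (mem_inter.1 (Finset.mem_coe.1 hA)).1
      (mem_inter.1 (Finset.mem_coe.1 h)).1)
  have hsz : ∀ T : Finset (Finset (Fin d → Fin N)),
      Pool.Agent.J6H21.AS.Flips.sz (T : Set (Finset (Fin d → Fin N))) = (T.card : ℝ) := by
    intro T
    unfold Pool.Agent.J6H21.AS.Flips.sz
    simp
  have hc : Fintype.card {c : Fin d → Fin N // c ∈ diagonal d N} = N := by
    rw [Fintype.card_coe, card_diagonal hd]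
  have hcE : Fintype.card (Fin d → Fin N) = N ^ d := by simp
  rw [hsz, hsz, hc] at h2
  rw [hcE] at h1
  have h3 : (N : ℝ) * (2 * (S ∩ F).card) ≤ N * ((F.card : ℝ) + β * 2 ^ (N ^ d)) := by linarith
  have := le_of_mul_le_mul_left h3 hNpos
  linarith

lemma part_three (hd : 1 ≤ d) (θ θ' : ℝ) (h0 : 0 ≤ θ) (h : θ < θ') (HA : Above d θ) :
    Relative d θ' := by
  obtain ⟨c, hc, s, hs, N₀, hN₀, H⟩ := Pool.Agent.J6H21.AS.rel' hd θ θ' h0 h HA
  refine ⟨c / s, by positivity, N₀, fun N hN F S β hF hβ hS => H N hN F S ?_ hS⟩
  intro K hK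
  have h1 := comb_bound N (hN₀.trans hN) (Finset.subset_univ K) s hs hK F β hF
  have hcE : Fintype.card (Fin d → Fin N) = N ^ d := by simp
  rw [hcE] at h1
  refine h1.trans ?_
  have h2 : (s * N) * (β * 2 ^ (N ^ d)) ≤ (s * N) * (c / s * F.card) :=
    mul_le_mul_of_nonneg_left hβ (by positivity)
  have h3 : (s * N) * (c / s * F.card) = c * N * F.card := by
    have : s ≠ 0 := by linarith
    field_simp
  linarith

end cells

/-- **Intersections of exponentially many unate families, and combinations of conditions of bounded order.** -/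
theorem result (d : ℕ) (hd : 1 ≤ d) :
    (∀ (N : ℕ), 1 ≤ N → ∀ (S : Finset (Finset (Fin d → Fin N))) (δ : ℝ), 0 < δ →
      (S.card : ℝ) = δ * 2 ^ (N ^ d) →
      ∀ (k : ℕ) (U : Fin k → Set (Finset (Fin d → Fin N))), (∀ i, Unate (diagonal d N) (U i)) →
        (∀ A, A ∈ S ↔ ∀ i, A ∈ U i) → 2 * (k : ℝ) < Real.exp (δ ^ 2 * N / 2) → Good S) ∧
    (∀ (N : ℕ), 1 ≤ N → ∀ (F S : Finset (Finset (Fin d → Fin N))) (β : ℝ),
      Combination N (diagonal d N) F β →
      (F.card : ℝ) + β * 2 ^ (N ^ d) < 2 * (S ∩ F).card → Good S) ∧
    (∀ θ θ' : ℝ, 0 ≤ θ → θ < θ' → Above d θ → Relative d θ') ∧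
    (∀ θ' : ℝ, threshold d < θ' → Relative d θ') := by
  classical
  refine ⟨?_, fun N hN F S β hF h => part_two hd hN F S β hF h,
    fun θ θ' h0 h HA => part_three hd θ θ' h0 h HA, ?_⟩
  · intro N hN S δ hδ hS k U hU hSU hk
    have hNpos : (0 : ℝ) < N := by exact_mod_cast hN
    refine part_two hd hN S S (bound N k 1) ?_ ?_
    · refine ⟨1, fun _ => k, fun _ => 1, fun _ i A => if A ∈ U i then 1 else 0,
        fun _ P => P 0, fun _ => le_rfl, fun _ i => order_of_unate (hU i), ?_, ?_⟩
      · intro A
        rw [hSU]
        refine forall_congr' fun i => ?_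
        by_cases h : A ∈ U i <;> simp [h]
      · simp
    · have hb : bound N k 1 < δ := by
        rw [bound, if_pos rfl, Real.sqrt_lt' hδ]
        rcases Nat.eq_zero_or_pos k with h0 | h0
        · subst h0
          simp
          positivity
        · have hk0 : (0 : ℝ) < 2 * k := by positivity
          have h1 := (Real.log_lt_iff_lt_exp hk0).2 hk
          rw [div_lt_iff₀ hNpos]
          linarith
      rw [inter_self, hS]
      have : bound N k 1 * 2 ^ (N ^ d) < δ * 2 ^ (N ^ d) :=
        mul_lt_mul_of_pos_right hb (by positivity)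
      linarith
  · intro θ' hθ'
    have h0 : 0 ≤ threshold d := by
      unfold threshold
      split_ifs
      · exact le_rfl
      · norm_num
      · positivity
    refine part_three hd (threshold d) θ' h0 hθ' ?_
    intro δ hδ
    have key : ∃ N₀ : ℕ, ∀ N : ℕ, N₀ ≤ N → ∀ S : Finset (Finset (Fin d → Fin N)),
        δ * (2 : ℝ) ^ (N ^ d) < S.card → Good S := by
      unfold threshold at hδ
      by_cases h1 : d = 1
      · subst h1
        rw [if_pos rfl] at hδ
        exact Pool.Agent.TH635.PH.Thr.thr 1 le_rfl δ (by simpa using hδ)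
      · rw [if_neg h1] at hδ
        by_cases h2 : d = 2
        · subst h2
          rw [if_pos rfl] at hδ
          refine Pool.Agent.J6H53.PB.thr_of_bound (D₀ := 306564 / 1000000) (fun X hX => ?_) δ hδ
          have := Pool.Agent.J6H53.PB.Data.bound X hX
          linarith
        · rw [if_neg h2] at hδ
          exact FourCycleThreshold.result d (by omega) δ hδ
    obtain ⟨N₀, hN₀⟩ := key
    exact ⟨N₀ + 1, by omega, hN₀ (N₀ + 1) (by omega)⟩

end Pool.Agent.Results.MP_90b327_co.ManyConditions
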